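import Pool.Agent.Y382.NCH.Stm

/-! # NCH-SQU: squares of abelian groups have transversals -/

set_option autoImplicit false

namespace Pool.Agent.Y151.NCH

universe u

/-- SQU -/
theorem t_SQU : Pool.Agent.Y382.NCH.S_SQU.{u} := by
  intro B _ _
  refine ⟨⟨fun x => (x.2, x.1 * x.2), fun y => (y.2 * y.1⁻¹, y.1), ?_, ?_⟩, ?_⟩
  · rintro ⟨a, b⟩
    simp
  · rintro ⟨c, d⟩
    simp
  · rw [← Finite.injective_iff_bijective]
    rintro ⟨a, b⟩ ⟨a', b'⟩ h
    have h1 : a * b = a' * b' := congrArg Prod.fst h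
    have h2 : b * (a * b) = b' * (a' * b') := congrArg Prod.snd h
    rw [h1] at h2
    have h3 : b = b' := mul_right_cancel h2
    rw [h3] at h1
    have h4 : a = a' := mul_right_cancel h1
    rw [h3, h4]

end Pool.Agent.Y151.NCH
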